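import Pool.Agent.Q264.SN.Stm

/-!
# Project SN (helper264), jobs ROW, ONE, FOUR: the noise kernel
-/

set_option autoImplicit false

namespace Pool.Agent.Q162.SN

open Finset
open Pool.Agent.Q264.SN

theorem sg_mul_self (b : Bool) : sg b * sg b = 1 := by
  cases b <;> simp [sg]

theorem t_ROW : S_ROW := by
  intro N s x
  have h := Finset.prod_univ_sum (fun _ : Fin N => (univ : Finset Bool))
    (fun i b => (1 + s * (sg (x i) * sg b)) / 2)
  rw [Fintype.piFinset_univ] at h
  unfold ker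
  rw [← h]
  apply Finset.prod_eq_one
  intro i _
  rw [Fintype.sum_bool]
  simp only [sg, if_true]
  simp
  ring

theorem t_ONE : S_ONE := by
  intro N x y
  unfold ker
  by_cases h : x = y
  · rw [if_pos h, h]
    apply Finset.prod_eq_one
    intro i _
    rw [sg_mul_self]
    norm_num
  · rw [if_neg h]
    obtain ⟨i, hi⟩ := Function.ne_iff.1 h
    apply Finset.prod_eq_zero (mem_univ i)
    have h1 : sg (x i) * sg (y i) = -1 := by
      cases hx : x i <;> cases hy : y i <;> simp_all [sg]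
    rw [h1]
    norm_num

/-- Fourier expansion of the kernel -/
theorem ker_exp {N : ℕ} (s : ℝ) (x y : Cube N) :
    ker s x y = (1 / 2 ^ N) * ∑ S : Finset (Fin N), s ^ S.card * (chi S x * chi S y) := by
  unfold ker
  rw [Finset.prod_div_distrib, Finset.prod_one_add]
  simp only [Finset.prod_const, Finset.card_univ, Fintype.card_fin, Finset.powerset_univ]
  rw [div_eq_mul_one_div, mul_comm]
  congr 1
  refine Finset.sum_congr rfl fun S _ => ?_
  rw [Finset.prod_mul_distrib, Finset.prod_const, Finset.prod_mul_distrib]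
  rfl

theorem quad {P I : Type} [Fintype P] [Fintype I] (v : P → ℝ) (c : I → ℝ) (g : I → P → ℝ) :
    ∑ p, ∑ q, v p * v q * ∑ i, c i * (g i p * g i q) = ∑ i, c i * (∑ p, v p * g i p) ^ 2 := by
  have h1 : ∀ i, c i * (∑ p, v p * g i p) ^ 2 = ∑ p, ∑ q, v p * v q * (c i * (g i p * g i q)) := by
    intro i
    rw [sq, Finset.sum_mul_sum, Finset.mul_sum]
    refine Finset.sum_congr rfl fun p _ => ?_
    rw [Finset.mul_sum]
    refine Finset.sum_congr rfl fun q _ => ?_
    ring
  calc ∑ p, ∑ q, v p * v q * ∑ i, c i * (g i p * g i q) =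
        ∑ p, ∑ q, ∑ i, v p * v q * (c i * (g i p * g i q)) := by
        simp_rw [Finset.mul_sum]
    _ = ∑ p, ∑ i, ∑ q, v p * v q * (c i * (g i p * g i q)) :=
        Finset.sum_congr rfl fun p _ => Finset.sum_comm
    _ = ∑ i, ∑ p, ∑ q, v p * v q * (c i * (g i p * g i q)) := Finset.sum_comm
    _ = _ := Finset.sum_congr rfl fun i _ => (h1 i).symm

theorem t_FOUR : S_FOUR := by
  intro N s t v
  have h1 : ∀ p q : Cube N × Cube N, ker s p.1 q.1 * ker t p.2 q.2 =
      (1 / 4 ^ N) * ∑ ST : Finset (Fin N) × Finset (Fin N), (s ^ ST.1.card * t ^ ST.2.card) *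
        ((chi ST.1 p.1 * chi ST.2 p.2) * (chi ST.1 q.1 * chi ST.2 q.2)) := by
    intro p q
    rw [ker_exp, ker_exp]
    have h2 : (4 : ℝ) ^ N = 2 ^ N * 2 ^ N := by
      rw [← mul_pow]
      norm_num
    have h5 : (1 / (2 : ℝ) ^ N) * (1 / 2 ^ N) = 1 / (2 ^ N * 2 ^ N) := one_div_mul_one_div _ _
    rw [h2, mul_mul_mul_comm, Finset.sum_mul_sum, Fintype.sum_prod_type, h5]
    apply congrArg
    refine Finset.sum_congr rfl fun S _ => Finset.sum_congr rfl fun T _ => ?_
    ring
  have h3 : ∀ p q : Cube N × Cube N, v p * v q * (ker s p.1 q.1 * ker t p.2 q.2) =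
      (1 / 4 ^ N) * (v p * v q * ∑ ST : Finset (Fin N) × Finset (Fin N), (s ^ ST.1.card * t ^ ST.2.card) *
        ((chi ST.1 p.1 * chi ST.2 p.2) * (chi ST.1 q.1 * chi ST.2 q.2))) := by
    intro p q
    rw [h1]
    ring
  simp_rw [h3, ← Finset.mul_sum]
  rw [quad v (fun ST : Finset (Fin N) × Finset (Fin N) => s ^ ST.1.card * t ^ ST.2.card)
    (fun ST p => chi ST.1 p.1 * chi ST.2 p.2), Fintype.sum_prod_type]

end Pool.Agent.Q162.SN
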