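import Pool.Agent.Q264.SN.Stm

/-!
# Project SN (helper264), job MEAS: a finite measure with nonnegative mixed moments
-/

set_option autoImplicit false

namespace Pool.Agent.Q162.SN

open Finset Filter Topology
open Pool.Agent.Q264.SN

theorem t_MEAS (hPOLY : S_POLY) : S_MEAS := by
  intro L
  let m : ℝ → ℝ → (Fin L × Fin L → ℝ) := fun x y k => x ^ (k.1 : ℕ) * y ^ (k.2 : ℕ)
  let R : Set (Fin L × Fin L → ℝ) := {a | ∃ x y : ℝ, (x ≤ -1 ∨ y ≤ -1) ∧ a = m x y}
  let P : Set (Fin L × Fin L → ℝ) := {a | ∀ k, 0 < a k}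
  have hP1 : Convex ℝ P := by
    intro a ha b hb s t hs ht hst k
    have h1 := ha k
    have h2 := hb k
    simp only [Pi.add_apply, Pi.smul_apply, smul_eq_mul]
    rcases hs.eq_or_lt with h | h
    · have : t = 1 := by linarith
      rw [← h, this]
      linarith
    · have h3 : 0 ≤ t * b k := mul_nonneg ht h2.le
      have h4 : 0 < s * a k := mul_pos h h1
      linarith
  have hP2 : IsOpen P := by
    have h1 : P = Set.pi Set.univ fun _ => Set.Ioi (0 : ℝ) := by
      ext a
      simp [P]
    rw [h1]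
    exact isOpen_set_pi Set.finite_univ fun _ _ => isOpen_Ioi
  by_cases hdis : Disjoint P (convexHull ℝ R)
  · exfalso
    obtain ⟨f, u, hf1, hf2⟩ := geometric_hahn_banach_open hP1 hP2 (convex_convexHull ℝ R) hdis
    have hfs : ∀ a : Fin L × Fin L → ℝ, f a = ∑ k, a k * f (Pi.single k 1) := by
      intro a
      have h1 : a = ∑ k, a k • (Pi.single k (1 : ℝ) : Fin L × Fin L → ℝ) := by
        funext j
        simp [Finset.sum_apply, Pi.single_apply]
      conv_lhs => rw [h1]
      rw [map_sum]
      refine Finset.sum_congr rfl fun k _ => ?_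
      rw [map_smul, smul_eq_mul]
    have h1P : (fun _ => (1 : ℝ)) ∈ P := fun k => one_pos
    have hc : ∀ k, 0 ≤ -f (Pi.single k 1) := by
      intro k
      by_contra hk
      rw [not_le] at hk
      have hk2 : 0 < f (Pi.single k 1) := by linarith
      obtain ⟨t, ht⟩ : ∃ t : ℝ, t = max 0 ((u - f (fun _ => (1 : ℝ))) / f (Pi.single k 1)) := ⟨_, rfl⟩
      have ht0 : 0 ≤ t := by
        rw [ht]
        exact le_max_left _ _
      have h2 : (fun _ => (1 : ℝ)) + t • (Pi.single k (1 : ℝ) : Fin L × Fin L → ℝ) ∈ P := by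
        intro j
        simp only [Pi.add_apply, Pi.smul_apply, smul_eq_mul, Pi.single_apply]
        split_ifs
        · linarith
        · norm_num
      have h3 := hf1 _ h2
      rw [map_add, map_smul, smul_eq_mul] at h3
      have h4 : (u - f (fun _ => (1 : ℝ))) / f (Pi.single k 1) ≤ t := by
        rw [ht]
        exact le_max_right _ _
      rw [div_le_iff₀ hk2] at h4
      linarith
    have hu : 0 ≤ u := by
      apply le_of_forall_pos_lt_add
      intro ε hε
      obtain ⟨δ, hδ⟩ : ∃ δ : ℝ, δ = ε / (|f (fun _ => (1 : ℝ))| + 1) := ⟨_, rfl⟩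
      have hδ0 : 0 < δ := by
        rw [hδ]
        positivity
      have h2 : δ • (fun _ => (1 : ℝ) : Fin L × Fin L → ℝ) ∈ P := by
        intro j
        simp only [Pi.smul_apply, smul_eq_mul, mul_one]
        exact hδ0
      have h3 := hf1 _ h2
      rw [map_smul, smul_eq_mul] at h3
      have h4 : -(δ * |f (fun _ => (1 : ℝ))|) ≤ δ * f (fun _ => (1 : ℝ)) := by
        have h5 := neg_abs_le (f (fun _ => (1 : ℝ)))
        nlinarith
      have h5 : δ * |f (fun _ => (1 : ℝ))| < ε := by
        have h6 : δ * (|f (fun _ => (1 : ℝ))| + 1) = ε := by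
          rw [hδ]
          field_simp
        linarith
      linarith
    have h0 := hPOLY L (fun k => -f (Pi.single k 1)) hc (fun x y hxy => by
      have h2 : m x y ∈ convexHull ℝ R := subset_convexHull ℝ R ⟨x, y, hxy, rfl⟩
      have h3 := hf2 _ h2
      rw [hfs] at h3
      have h4 : ∑ k, -f (Pi.single k 1) * (x ^ (k.1 : ℕ) * y ^ (k.2 : ℕ)) =
          -∑ k, m x y k * f (Pi.single k 1) := by
        rw [← Finset.sum_neg_distrib]
        refine Finset.sum_congr rfl fun k _ => ?_
        simp only [m]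
        ring
      rw [h4]
      linarith)
    have hf0 : ∀ a, f a = 0 := by
      intro a
      rw [hfs]
      refine Finset.sum_eq_zero fun k _ => ?_
      have := h0 k
      simp only [neg_eq_zero] at this
      rw [this, mul_zero]
    have h2 := hf1 _ h1P
    have h3 : m (-1) (-1) ∈ convexHull ℝ R :=
      subset_convexHull ℝ R ⟨-1, -1, Or.inl le_rfl, rfl⟩
    have h4 := hf2 _ h3
    rw [hf0] at h2 h4
    linarith
  · rw [Set.not_disjoint_iff] at hdis
    obtain ⟨a, haP, haC⟩ := hdis
    rw [mem_convexHull_iff_exists_fintype] at haC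
    obtain ⟨ι, hι, w, z, hw, hw1, hz, hza⟩ := haC
    choose x y hxy hm using hz
    let e := Fintype.equivFin ι
    refine ⟨Fintype.card ι, fun k => w (e.symm k), fun k => x (e.symm k), fun k => y (e.symm k),
      fun k => hw _, ?_, fun k => hxy _, ?_⟩
    · rw [← hw1]
      exact Equiv.sum_comp e.symm w
    · intro i j hi hj
      have h1 := haP (⟨i, hi⟩, ⟨j, hj⟩)
      rw [← hza, Finset.sum_apply] at h1
      have h2 : ∑ k, w (e.symm k) * (x (e.symm k) ^ i * y (e.symm k) ^ j) =
          ∑ k, w k * (x k ^ i * y k ^ j) := Equiv.sum_comp e.symm fun k => w k * (x k ^ i * y k ^ j)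
      rw [h2]
      refine h1.le.trans (le_of_eq (Finset.sum_congr rfl fun k _ => ?_))
      rw [Pi.smul_apply, smul_eq_mul, hm k]

end Pool.Agent.Q162.SN
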