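import Pool.Agent.Q264.SN.Stm

/-!
# Project SN (helper264), jobs LEAD and POLY
-/

set_option autoImplicit false

namespace Pool.Agent.Q162.SN

open Finset Filter Topology
open Pool.Agent.Q264.SN

theorem t_LEAD : S_LEAD := by
  intro ι _ b e D hb ⟨l₀, hl⟩
  have h1 : ∀ k, Tendsto (fun l : ℝ => b k * l ^ e k / l ^ D) atTop
      (𝓝 (if e k = D then b k else 0)) := by
    intro k
    rcases lt_trichotomy (e k) D with h | h | h
    · rw [if_neg h.ne]
      have h2 := (tendsto_pow_div_pow_atTop_zero (𝕜 := ℝ) h).const_mul (b k)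
      rw [mul_zero] at h2
      refine h2.congr fun l => ?_
      rw [mul_div_assoc]
    · rw [if_pos h]
      refine tendsto_const_nhds.congr' ?_
      filter_upwards [eventually_gt_atTop (0 : ℝ)] with l hl0
      rw [h, mul_div_assoc, div_self (pow_pos hl0 D).ne', mul_one]
    · rw [if_neg h.ne']
      have h2 : b k = 0 := by
        by_contra h3
        have := hb k h3
        omega
      simp only [h2, zero_mul, zero_div]
      exact tendsto_const_nhds
  have h2 := tendsto_finsetSum (univ : Finset ι) fun k _ => h1 k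
  rw [← Finset.sum_filter] at h2
  refine le_of_tendsto h2 ?_
  filter_upwards [eventually_gt_atTop (0 : ℝ), eventually_ge_atTop l₀] with l hl0 hl1
  rw [← Finset.sum_div]
  exact div_nonpos_of_nonpos_of_nonneg (hl l hl1) (pow_pos hl0 D).le

theorem t_POLY : S_POLY := by
  intro L c hc hneg
  by_contra hne
  push Not at hne
  obtain ⟨k1, hk1⟩ := hne
  obtain ⟨k0, hk0, hmax⟩ := Finset.exists_max_image (univ.filter fun k : Fin L × Fin L => c k ≠ 0)
    (fun k => (k.1 : ℕ) + (k.2 : ℕ)) ⟨k1, by simp [hk1]⟩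
  simp only [Finset.mem_filter, Finset.mem_univ, true_and] at hk0 hmax
  obtain ⟨D, hD⟩ : ∃ D, D = (k0.1 : ℕ) + (k0.2 : ℕ) := ⟨_, rfl⟩
  rw [← hD] at hmax
  have hpos : 0 < c k0 := lt_of_le_of_ne (hc k0) (Ne.symm hk0)
  have hmem : k0 ∈ univ.filter fun k : Fin L × Fin L => (k.1 : ℕ) + (k.2 : ℕ) = D := by
    simp [hD]
  rcases Nat.even_or_odd D with hev | hodd
  · have h1 := t_LEAD (Fin L × Fin L) (fun k => c k * (-1) ^ ((k.1 : ℕ) + (k.2 : ℕ)))
      (fun k => (k.1 : ℕ) + (k.2 : ℕ)) D (fun k hk => hmax k fun h => hk (by rw [h, zero_mul]))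
      ⟨1, fun l hl => by
        refine le_of_eq_of_le (Finset.sum_congr rfl fun k _ => ?_) (hneg (-l) (-l) (Or.inl (by linarith)))
        rw [← pow_add, neg_pow l]
        ring⟩
    have h2 : ∑ k with (k.1 : ℕ) + (k.2 : ℕ) = D, c k * (-1) ^ ((k.1 : ℕ) + (k.2 : ℕ)) =
        ∑ k with (k.1 : ℕ) + (k.2 : ℕ) = D, c k := by
      refine Finset.sum_congr rfl fun k hk => ?_
      rw [Finset.mem_filter] at hk
      rw [hk.2, hev.neg_one_pow, mul_one]
    rw [h2] at h1
    have h3 := Finset.single_le_sum (f := c) (fun k _ => hc k) hmem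
    linarith
  · -- the leading form vanishes
    have ha : ∀ v : ℝ, 0 < v →
        ∑ k with (k.1 : ℕ) + (k.2 : ℕ) = D, c k * ((-1) ^ (k.1 : ℕ) * v ^ (k.2 : ℕ)) = 0 := by
      intro v hv
      have h1 := t_LEAD (Fin L × Fin L) (fun k => c k * ((-1) ^ (k.1 : ℕ) * v ^ (k.2 : ℕ)))
        (fun k => (k.1 : ℕ) + (k.2 : ℕ)) D (fun k hk => hmax k fun h => hk (by rw [h, zero_mul]))
        ⟨1, fun l hl => by
          refine le_of_eq_of_le (Finset.sum_congr rfl fun k _ => ?_)
            (hneg (-l) (v * l) (Or.inl (by linarith)))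
          rw [neg_pow l, mul_pow, pow_add]
          ring⟩
      have h2 := t_LEAD (Fin L × Fin L) (fun k => c k * ((-1) ^ (k.2 : ℕ) * v ^ (k.2 : ℕ)))
        (fun k => (k.1 : ℕ) + (k.2 : ℕ)) D (fun k hk => hmax k fun h => hk (by rw [h, zero_mul]))
        ⟨1 / v, fun l hl => by
          refine le_of_eq_of_le (Finset.sum_congr rfl fun k _ => ?_)
            (hneg l (-(v * l)) (Or.inr (by
              rw [div_le_iff₀ hv] at hl
              linarith)))
          rw [neg_pow (v * l), mul_pow, pow_add]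
          ring⟩
      have h3 : ∑ k with (k.1 : ℕ) + (k.2 : ℕ) = D, c k * ((-1) ^ (k.2 : ℕ) * v ^ (k.2 : ℕ)) =
          -∑ k with (k.1 : ℕ) + (k.2 : ℕ) = D, c k * ((-1) ^ (k.1 : ℕ) * v ^ (k.2 : ℕ)) := by
        rw [← Finset.sum_neg_distrib]
        refine Finset.sum_congr rfl fun k hk => ?_
        rw [Finset.mem_filter] at hk
        have h4 : ((-1 : ℝ)) ^ (k.1 : ℕ) * (-1) ^ (k.2 : ℕ) = -1 := by
          rw [← pow_add, hk.2]
          exact hodd.neg_one_pow
        have h5 : ((-1 : ℝ)) ^ (k.1 : ℕ) * (-1) ^ (k.1 : ℕ) = 1 := by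
          rw [← mul_pow]
          norm_num
        have h6 : ((-1 : ℝ)) ^ (k.2 : ℕ) = -((-1) ^ (k.1 : ℕ)) := by
          calc ((-1 : ℝ)) ^ (k.2 : ℕ) = ((-1) ^ (k.1 : ℕ) * (-1) ^ (k.1 : ℕ)) * (-1) ^ (k.2 : ℕ) := by
                rw [h5, one_mul]
            _ = (-1) ^ (k.1 : ℕ) * ((-1) ^ (k.1 : ℕ) * (-1) ^ (k.2 : ℕ)) := by ring
            _ = _ := by rw [h4]; ring
        rw [h6]
        ring
      rw [h3] at h2
      linarith
    obtain ⟨A, hA⟩ : ∃ A : Polynomial ℝ, A = ∑ k with (k.1 : ℕ) + (k.2 : ℕ) = D,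
      Polynomial.C (c k * (-1) ^ (k.1 : ℕ)) * Polynomial.X ^ (k.2 : ℕ) := ⟨_, rfl⟩
    have hA0 : A = 0 := by
      apply Polynomial.eq_zero_of_infinite_isRoot
      refine Set.Infinite.mono (s := Set.Ioi (0 : ℝ)) (fun v hv => ?_) (Set.Ioi_infinite 0)
      show Polynomial.eval v A = 0
      rw [hA, Polynomial.eval_finsetSum, ← ha v hv]
      refine Finset.sum_congr rfl fun k _ => ?_
      rw [Polynomial.eval_mul, Polynomial.eval_C, Polynomial.eval_pow, Polynomial.eval_X, mul_assoc]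
    have hco : Polynomial.coeff A (k0.2 : ℕ) = c k0 * (-1) ^ (k0.1 : ℕ) := by
      rw [hA, Polynomial.finsetSum_coeff]
      rw [Finset.sum_eq_single_of_mem k0 hmem]
      · rw [Polynomial.coeff_C_mul, Polynomial.coeff_X_pow, if_pos rfl, mul_one]
      · intro k hk hkk
        rw [Finset.mem_filter] at hk
        rw [Polynomial.coeff_C_mul, Polynomial.coeff_X_pow, if_neg, mul_zero]
        intro h
        apply hkk
        have h1 : (k.1 : ℕ) = (k0.1 : ℕ) := by
          have := hk.2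
          omega
        exact Prod.ext (Fin.ext h1) (Fin.ext h.symm)
    rw [hA0, Polynomial.coeff_zero] at hco
    have h5 : (c k0 * (-1) ^ (k0.1 : ℕ)) ≠ 0 := mul_ne_zero hk0 (pow_ne_zero _ (by norm_num))
    exact h5 hco.symm

end Pool.Agent.Q162.SN
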